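import Pool.Agent.Q41.AB.Stm2

set_option autoImplicit false

/-!
Common denominators (lemma job for helper41).
-/

open MvPolynomial FF Pool.Agent.Q41.RC Pool.Agent.Q41.AB Pool.Agent.W603.LV

namespace Pool.Agent.Q95.AB

section hom

variable {k ρ σ : Type} [Field k] [Fintype ρ] [Fintype σ]

open scoped Classical in
/-- Homogenization with the coordinates `o l`. -/
lemma exists_hom (pr : σ → ρ) (o : ρ → σ) (ho : ∀ l, pr (o l) = l) (D : ρ → ℕ)
    (P : MvPolynomial σ k)
    (hP : ∀ s ∈ P.support, ∀ l, ∑ i, (if pr i = l then s i else 0) ≤ D l) :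
    ∃ A : MvPolynomial σ k, MH pr D A ∧ ∀ {K : Type} [Field K] [Algebra k K] (y : σ → K),
      (∀ l, y (o l) = 1) → aeval y A = aeval y P := by
  set e : (σ →₀ ℕ) → ρ → ℕ := fun s l => D l - ∑ i, (if pr i = l then s i else 0) with he
  set t : (σ →₀ ℕ) → (σ →₀ ℕ) := fun s =>
    Finsupp.equivFunOnFinite.symm (fun i => s i + ∑ l, if o l = i then e s l else 0) with ht
  have htc : ∀ s i, t s i = s i + ∑ l, if o l = i then e s l else 0 := fun s i => rfl
  refine ⟨∑ s ∈ P.support, monomial (t s) (coeff s P), ?_, ?_⟩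
  · intro s' hs' l
    have h1 := support_sum hs'
    rw [Finset.mem_biUnion] at h1
    obtain ⟨s, hs, h2⟩ := h1
    have h3 : s' = t s := Finset.mem_singleton.1 (support_monomial_subset h2)
    have h4 : ∑ i, (if pr i = l then s' i else 0) = ∑ i, (if pr i = l then s i else 0) + e s l := by
      have h5 : ∀ i, (if pr i = l then s' i else 0) = (if pr i = l then s i else 0) +
          ∑ l', (if o l' = i then (if pr i = l then e s l' else 0) else 0) := by
        intro i
        rw [h3, htc]
        by_cases hi : pr i = l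
        · simp [hi]
        · simp [hi]
      rw [Finset.sum_congr rfl fun i _ => h5 i, Finset.sum_add_distrib, Finset.sum_comm]
      congr 1
      have h6 : ∀ l', ∑ i, (if o l' = i then (if pr i = l then e s l' else 0) else 0) =
          if l' = l then e s l' else 0 := by
        intro l'
        rw [Finset.sum_ite_eq Finset.univ (o l')]
        simp [ho]
      rw [Finset.sum_congr rfl fun l' _ => h6 l']
      simp
    rw [h4, he]
    have := hP s hs l
    simp only
    omega
  · intro K _ _ y hy
    rw [map_sum]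
    conv_rhs => rw [P.as_sum, map_sum]
    refine Finset.sum_congr rfl fun s _ => ?_
    rw [aeval_monomial, aeval_monomial]
    congr 1
    rw [Finsupp.prod_fintype _ _ (fun i => by simp), Finsupp.prod_fintype _ _ (fun i => by simp)]
    refine Finset.prod_congr rfl fun i _ => ?_
    rw [htc, pow_add]
    by_cases h : ∃ l, o l = i
    · obtain ⟨l, rfl⟩ := h
      rw [hy]; simp
    · have h2 : ∑ l, (if o l = i then e s l else 0) = 0 :=
        Finset.sum_eq_zero fun l _ => if_neg fun h3 => h ⟨l, h3⟩
      rw [h2, pow_zero, mul_one]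

open scoped Classical in
omit [Fintype ρ] in
lemma MH_mul {pr : σ → ρ} {D E : ρ → ℕ} {A B : MvPolynomial σ k} (hA : MH pr D A)
    (hB : MH pr E B) : MH pr (D + E) (A * B) := by
  intro s hs l
  have h1 := support_mul A B hs
  obtain ⟨a, ha, b, hb, rfl⟩ := Finset.mem_add.1 h1
  have h2 := hA a ha l
  have h3 := hB b hb l
  rw [Pi.add_apply, ← h2, ← h3, ← Finset.sum_add_distrib]
  refine Finset.sum_congr rfl fun i _ => ?_
  rw [Finsupp.add_apply]
  split_ifs <;> simp

omit [Fintype ρ] in
lemma MH_one {pr : σ → ρ} : MH pr (0 : ρ → ℕ) (1 : MvPolynomial σ k) := by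
  classical
  intro s hs l
  have h1 : s = 0 := by
    rw [mem_support_iff, coeff_one] at hs
    by_contra h
    exact hs (if_neg fun h2 => h h2.symm)
  rw [h1]
  simp

/-- lower bound for the orders of the values of forms. -/
lemma ge_form {K : Type} [Field K] [Algebra k K] {pr : σ → ρ} {D : ρ → ℕ} {A : MvPolynomial σ k}
    (hA : MH pr D A) (P : Place k K) (y : σ → K) (α : ρ → ℤ)
    (hα : ∀ i, y i ≠ 0 → α (pr i) ≤ P.ord (y i)) : Ge P (∑ l, (D l : ℤ) * α l) (aeval y A) := by
  classical
  rw [aeval_def, eval₂_eq']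
  refine Ge.sum _ _ fun s hs => ?_
  have h1 : ∀ i, Ge P (α (pr i)) (y i) := by
    intro i
    by_cases h : y i = 0
    · exact Or.inl h
    · exact Or.inr (hα i h)
  have h2 := (Ge.const (P := P) (coeff s A)).mul
    (Ge.prod Finset.univ (fun i => y i ^ s i) (fun i => (s i : ℤ) * α (pr i))
      fun i _ => (h1 i).pow (s i))
  refine h2.mono ?_
  rw [zero_add]
  apply le_of_eq
  have h3 : ∀ l, (D l : ℤ) * α l = ∑ i, (if pr i = l then (s i : ℤ) * α (pr i) else 0) := by
    intro l
    have h4 : (D l : ℤ) = ∑ i, (if pr i = l then (s i : ℤ) else 0) := by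
      rw [← hA s hs l]; push_cast
      exact Finset.sum_congr rfl fun i _ => by split_ifs <;> simp_all
    rw [h4, Finset.sum_mul]
    refine Finset.sum_congr rfl fun i _ => ?_
    split_ifs with h
    · rw [h]
    · rw [zero_mul]
  rw [Finset.sum_congr rfl fun l _ => h3 l, Finset.sum_comm]
  refine Finset.sum_congr rfl fun i _ => ?_
  simp

end hom

/-- an algebraic relation. -/
lemma exists_rel {k K σ : Type} [Field k] [Field K] [Algebra k K] (y : σ → K)
    (halg : Algebra.IsAlgebraic (IntermediateField.adjoin k (Set.range y)) K) (b : K) :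
    ∃ (d : ℕ) (a : ℕ → MvPolynomial σ k), aeval y (a d) ≠ 0 ∧
      ∑ i ∈ Finset.range (d + 1), aeval y (a i) * b ^ i = 0 := by
  open scoped IntermediateField.algebraAdjoinAdjoin in
  have h1 : IsAlgebraic (IntermediateField.adjoin k (Set.range y)) b := halg.isAlgebraic b
  have h2 : IsAlgebraic (Algebra.adjoin k (Set.range y)) b :=
    (IsFractionRing.isAlgebraic_iff (Algebra.adjoin k (Set.range y))
      (IntermediateField.adjoin k (Set.range y)) K).2 h1
  obtain ⟨p, hp0, hp⟩ := h2
  have h3 : ∀ i, ∃ a : MvPolynomial σ k, aeval y a = ((p.coeff i : Algebra.adjoin k (Set.range y)) : K) := by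
    intro i
    have h4 : ((p.coeff i : Algebra.adjoin k (Set.range y)) : K) ∈
        (aeval y : MvPolynomial σ k →ₐ[k] K).range :=
      (Algebra.adjoin_range_eq_range_aeval k y) ▸ (p.coeff i).2
    exact h4
  choose a ha using h3
  refine ⟨p.natDegree, a, ?_, ?_⟩
  · rw [ha]
    intro h
    apply hp0
    rw [← Polynomial.leadingCoeff_eq_zero]
    exact Subtype.ext h
  · rw [Polynomial.aeval_eq_sum_range] at hp
    rw [← hp]
    refine Finset.sum_congr rfl fun i _ => ?_
    rw [ha, Algebra.smul_def]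
    rfl

theorem den : Pool.Agent.Q41.AB.S_Den := by
  intro k K ρ σ _ _ _ _ _ pr o ho y hy halg B
  classical
  -- one element
  have hone : ∀ b : K, ∃ (D : ρ → ℕ) (Q : MvPolynomial σ k), MH pr D Q ∧ aeval y Q ≠ 0 ∧
      ∀ (P : Place k K) (α : ρ → ℤ), (∀ i, y i ≠ 0 → α (pr i) ≤ P.ord (y i)) →
        b ≠ 0 → ∑ l, (D l : ℤ) * α l ≤ P.ord (b * aeval y Q) := by
    intro b
    obtain ⟨d, a, had, hrel⟩ := exists_rel y halg b
    -- a common degree
    obtain ⟨D, hD⟩ : ∃ D : ρ → ℕ, ∀ j ∈ Finset.range (d + 1), ∀ s ∈ (a j).support, ∀ l,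
        ∑ i, (if pr i = l then s i else 0) ≤ D l := by
      refine ⟨fun l => ∑ j ∈ Finset.range (d + 1), ∑ s ∈ (a j).support,
        ∑ i, (if pr i = l then s i else 0), fun j hj s hs l => ?_⟩
      refine le_trans ?_ (Finset.single_le_sum (f := fun j => ∑ s ∈ (a j).support,
        ∑ i, (if pr i = l then s i else 0)) (fun _ _ => Nat.zero_le _) hj)
      exact Finset.single_le_sum (f := fun s : σ →₀ ℕ => ∑ i, (if pr i = l then s i else 0))
        (fun _ _ => Nat.zero_le _) hs
    have hA : ∀ j, ∃ A : MvPolynomial σ k, j ∈ Finset.range (d + 1) →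
        MH pr D A ∧ aeval y A = aeval y (a j) := by
      intro j
      by_cases hj : j ∈ Finset.range (d + 1)
      · obtain ⟨A, hA1, hA2⟩ := exists_hom pr o ho D (a j) (hD j hj)
        exact ⟨A, fun _ => ⟨hA1, hA2 y hy⟩⟩
      · exact ⟨0, fun h => absurd h hj⟩
    choose A hA using hA
    have hdm : d ∈ Finset.range (d + 1) := Finset.mem_range.2 (Nat.lt_succ_self d)
    refine ⟨D, A d, (hA d hdm).1, by rw [(hA d hdm).2]; exact had, ?_⟩
    intro P α hα hb
    set M : ℤ := ∑ l, (D l : ℤ) * α l with hM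
    set c : ℕ → K := fun i => aeval y (A i) with hc
    have hcg : ∀ i ∈ Finset.range (d + 1), Ge P M (c i) := fun i hi => ge_form (hA i hi).1 P y α hα
    have hcd : c d ≠ 0 := by rw [hc]; simp only; rw [(hA d hdm).2]; exact had
    have hrel' : ∑ i ∈ Finset.range (d + 1), c i * b ^ i = 0 := by
      rw [← hrel]
      exact Finset.sum_congr rfl fun i hi => by rw [hc]; simp only; rw [(hA i hi).2]
    set x : K := b * c d with hx
    have hx0 : x ≠ 0 := mul_ne_zero hb hcd
    by_contra hcon
    rw [not_le] at hcon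
    have hd : d ≠ 0 := by
      rintro rfl
      rw [Finset.sum_range_one, pow_zero, mul_one] at hrel'
      exact hcd hrel'
    have hpow : x ^ d = - ∑ i ∈ Finset.range d, c i * (c d) ^ (d - 1 - i) * x ^ i := by
      rw [Finset.sum_range_succ] at hrel'
      have h1 : (∑ i ∈ Finset.range d, c i * b ^ i) * (c d) ^ (d - 1) =
          ∑ i ∈ Finset.range d, c i * (c d) ^ (d - 1 - i) * x ^ i := by
        rw [Finset.sum_mul]
        refine Finset.sum_congr rfl fun i hi => ?_
        have hi' := Finset.mem_range.1 hi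
        have h2 : d - 1 = (d - 1 - i) + i := by omega
        rw [hx, mul_pow]
        conv_lhs => rw [h2, pow_add]
        ring
      have h3 : x ^ d = c d * b ^ d * (c d) ^ (d - 1) := by
        have h4 : (c d) ^ d = (c d) ^ (d - 1) * c d := by
          rw [← pow_succ]; congr 1; omega
        rw [hx, mul_pow, h4]; ring
      rw [h3, ← h1]
      linear_combination (c d) ^ (d - 1) * hrel'
    have hge : Ge P (d * P.ord x + 1) (x ^ d) := by
      rw [hpow]
      refine (Ge.sum _ _ fun i hi => ?_).neg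
      have hi' := Finset.mem_range.1 hi
      have hxx : Ge P (P.ord x) x := Or.inr le_rfl
      have h1 := ((hcg i (Finset.mem_range.2 (by omega))).mul
        ((hcg d hdm).pow (d - 1 - i))).mul
        (hxx.pow i)
      refine h1.mono ?_
      have h2 : ((d - 1 - i : ℕ) : ℤ) = (d : ℤ) - 1 - i := by omega
      rw [h2]
      have h3 : (1 : ℤ) ≤ (d : ℤ) - i := by omega
      have h4 : P.ord x + 1 ≤ M := by
        have : P.ord x = P.ord (b * aeval y (A d)) := by rw [hx, hc]
        rw [this]; exact hcon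
      nlinarith [mul_le_mul_of_nonneg_left h4 (by omega : (0 : ℤ) ≤ (d : ℤ) - i)]
    rcases hge with h | h
    · exact pow_ne_zero d hx0 h
    · rw [P.ord_pow] at h
      omega
  choose D Q hQ1 hQ2 hQ3 using hone
  have hprodMH : ∀ S : Finset K, MH pr (∑ b ∈ S, D b) (∏ b ∈ S, Q b) := by
    intro S
    induction S using Finset.induction_on with
    | empty => simpa using MH_one
    | insert b S hb ih =>
      rw [Finset.sum_insert hb, Finset.prod_insert hb]
      exact MH_mul (hQ1 b) ih
  refine ⟨∑ b ∈ B, D b, ∏ b ∈ B, Q b, hprodMH B, ?_, ?_⟩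
  · rw [map_prod]
    exact Finset.prod_ne_zero_iff.2 fun b _ => hQ2 b
  · intro P α hα b hb hb0
    rw [← Finset.mul_prod_erase B Q hb, map_mul, ← mul_assoc]
    have h1 := hQ3 b P α hα hb0
    have h2 := ge_form (hprodMH (B.erase b)) P y α hα
    have h3 : aeval y (∏ b ∈ B.erase b, Q b) ≠ 0 := by
      rw [map_prod]
      exact Finset.prod_ne_zero_iff.2 fun b _ => hQ2 b
    have h4 := h2.resolve_left h3
    rw [P.ord_mul (mul_ne_zero hb0 (hQ2 b)) h3]
    have h5 : ∑ l, (((∑ b ∈ B, D b) l : ℕ) : ℤ) * α l =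
        ∑ l, (D b l : ℤ) * α l + ∑ l, (((∑ b ∈ B.erase b, D b) l : ℕ) : ℤ) * α l := by
      rw [← Finset.sum_add_distrib]
      refine Finset.sum_congr rfl fun l _ => ?_
      rw [← Finset.add_sum_erase B D hb, Pi.add_apply]
      push_cast; ring
    rw [h5]
    exact add_le_add h1 h4

end Pool.Agent.Q95.AB
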