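import Pool.Agent.Q41.AB.Stm

set_option autoImplicit false

/-!
Arcs with prescribed values of the hypersurfaces (lemma job for helper41).
-/

open MvPolynomial

namespace Pool.Agent.Q95.AB

/-- Taylor's formula to first order. -/
lemma taylor {k R σ : Type} [Field k] [CommRing R] [Algebra k R] [Fintype σ]
    (x y : σ → R) (e : R) (F : MvPolynomial σ k) :
    ∃ r : R, aeval (fun i => x i + e * y i) F =
      aeval x F + e * ∑ i, y i * aeval x (pderiv i F) + e ^ 2 * r := by
  classical
  induction F using MvPolynomial.induction_on with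
  | C a => exact ⟨0, by simp⟩
  | add p q hp hq =>
    obtain ⟨r, hr⟩ := hp
    obtain ⟨s, hs⟩ := hq
    refine ⟨r + s, ?_⟩
    rw [map_add, hr, hs]
    simp only [map_add, mul_add, Finset.sum_add_distrib]
    ring
  | mul_X p n hp =>
    obtain ⟨r, hr⟩ := hp
    have h1 : ∑ i, y i * aeval x (pderiv i (p * X n)) =
        (∑ i, y i * aeval x (pderiv i p)) * x n + aeval x p * y n := by
      have h2 : ∀ i, y i * aeval x (pderiv i (p * X n)) =
          y i * aeval x (pderiv i p) * x n + (if i = n then aeval x p * y n else 0) := by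
        intro i
        rw [pderiv_mul, pderiv_X, map_add, map_mul, map_mul, aeval_X, mul_add]
        by_cases h : i = n
        · subst h; simp; ring
        · rw [if_neg h, Pi.single_eq_of_ne (Ne.symm h)]; simp; ring
      rw [Finset.sum_congr rfl fun i _ => h2 i, Finset.sum_add_distrib, ← Finset.sum_mul,
        Finset.sum_ite_eq' Finset.univ n]
      simp
    refine ⟨(∑ i, y i * aeval x (pderiv i p)) * y n + r * x n + r * e * y n, ?_⟩
    rw [h1, map_mul, map_mul, hr, aeval_X, aeval_X]
    ring

/-- linear systems with independent rows. -/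
lemma solve {L σ J : Type} [Field L] [Fintype σ] [Fintype J] (g : J → σ → L)
    (hg : LinearIndependent L g) (η : J → L) : ∃ ξ : σ → L, ∀ c, ∑ i, g c i * ξ i = η c := by
  classical
  set M : Matrix J σ L := Matrix.of g with hM
  have h1 : M.rank = Fintype.card J := LinearIndependent.rank_matrix (M := M) hg
  have h2 : LinearMap.range M.mulVecLin = ⊤ := by
    apply Submodule.eq_top_of_finrank_eq
    rw [Module.finrank_fintype_fun_eq_card]
    exact h1
  obtain ⟨ξ, hξ⟩ := LinearMap.range_eq_top.1 h2 η
  refine ⟨ξ, fun c => ?_⟩
  have := congrFun hξ c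
  simpa [Matrix.mulVec, dotProduct, hM] using this

lemma coeff_zero_aeval {k L σ : Type} [Field k] [Field L] [Algebra k L]
    (x : σ → Polynomial L) (q : σ → L) (hx : ∀ i, (x i).coeff 0 = q i) (P : MvPolynomial σ k) :
    (aeval x P).coeff 0 = aeval q P := by
  induction P using MvPolynomial.induction_on with
  | C a => simp [Polynomial.algebraMap_apply]
  | add p q hp hq => simp [hp, hq]
  | mul_X p n hp => simp [Polynomial.mul_coeff_zero, hp, hx]

theorem arc : Pool.Agent.Q41.AB.S_Arc := by
  intro k L σ κ _ _ _ _ _ F J q hF hind H hH B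
  classical
  induction B with
  | zero => exact ⟨fun i => Polynomial.C (q i), by simp, fun c _ => by simp⟩
  | succ B ih =>
    obtain ⟨x, hx0, hx⟩ := ih
    rcases Nat.eq_zero_or_pos B with rfl | hB
    · refine ⟨x, hx0, fun c hc => ?_⟩
      rw [zero_add, pow_one, Polynomial.X_dvd_iff, Polynomial.coeff_sub,
        coeff_zero_aeval x q hx0, hF c hc, hH c hc, sub_zero]
    · choose! w hw using hx
      obtain ⟨ξ, hξ⟩ := solve (fun (c : J) (i : σ) => aeval q (pderiv i (F c.1))) hind
        (fun c => - (w c.1).coeff 0)
      refine ⟨fun i => x i + Polynomial.X ^ B * Polynomial.C (ξ i), ?_, ?_⟩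
      · intro i
        rw [Polynomial.coeff_add, Polynomial.mul_coeff_zero, Polynomial.coeff_X_pow,
          if_neg hB.ne, zero_mul, add_zero, hx0]
      · intro c hc
        obtain ⟨r, hr⟩ := taylor x (fun i => Polynomial.C (ξ i)) (Polynomial.X ^ B) (F c)
        have h1 : aeval (fun i => x i + Polynomial.X ^ B * Polynomial.C (ξ i)) (F c) - H c =
            Polynomial.X ^ B * (w c + ∑ i, Polynomial.C (ξ i) * aeval x (pderiv i (F c))) +
              Polynomial.X ^ (B + B) * r := by
          rw [hr]
          have h2 := hw c hc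
          have h3 : aeval x (F c) = H c + Polynomial.X ^ B * w c := by rw [← h2]; ring
          rw [h3]; ring
        rw [h1]
        refine dvd_add ?_ ?_
        · rw [pow_succ]
          refine mul_dvd_mul_left _ ?_
          rw [Polynomial.X_dvd_iff, Polynomial.coeff_add, Polynomial.finsetSum_coeff]
          have h4 : ∀ i, (Polynomial.C (ξ i) * aeval x (pderiv i (F c))).coeff 0 =
              aeval q (pderiv i (F c)) * ξ i := by
            intro i
            rw [Polynomial.coeff_C_mul, coeff_zero_aeval x q hx0, mul_comm]
          rw [Finset.sum_congr rfl fun i _ => h4 i]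
          have h5 := hξ ⟨c, hc⟩
          simp only at h5
          rw [h5]; ring
        · exact (pow_dvd_pow _ (by omega)).mul_right _

end Pool.Agent.Q95.AB
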