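import Pool.Agent.Q41.AB.Stm
import Pool.Agent.Q41.RC.Curve

set_option autoImplicit false

/-!
Curves through a given point with prescribed values of the hypersurfaces (lemma job for helper41).
-/

open Polynomial Pool.Agent.Q41.RC

namespace Pool.Agent.Q95.AB

/-- values of reflected polynomials. -/
lemma eval_reflect {k : Type} [Field k] {N : ℕ} {f : k[X]} (hf : f.natDegree ≤ N) {t : k}
    (ht : t ≠ 0) : (reflect N f).eval t = t ^ N * f.eval t⁻¹ := by
  have : Invertible t⁻¹ := invertibleOfNonzero (inv_ne_zero ht)
  have h := eval₂_reflect_mul_pow (RingHom.id k) t⁻¹ N f hf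
  rw [invOf_eq_inv, inv_inv] at h
  change (reflect N f).eval t * t⁻¹ ^ N = f.eval t⁻¹ at h
  rw [← h, inv_pow, mul_comm (eval t (reflect N f)), ← mul_assoc,
    mul_inv_cancel₀ (pow_ne_zero _ ht), one_mul]

lemma eval_aeval {k σ : Type} [Field k] (x : σ → k[X]) (P : MvPolynomial σ k) (t : k) :
    (MvPolynomial.aeval x P).eval t = MvPolynomial.aeval (fun i => (x i).eval t) P := by
  induction P using MvPolynomial.induction_on with
  | C a => simp
  | add p q hp hq => simp [hp, hq]
  | mul_X p n hp => simp [hp]

theorem curve : Pool.Agent.Q41.AB.S_Curve := by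
  intro k ρ σ κ ι _ _ _ _ _ _ pr δ F hF q0 μ V u hVu hlt
  classical
  obtain ⟨q, α, hdeg, hq0, hne, hval⟩ := exists_curve (L := k) hF q0 μ
    (fun i c => if MvPolynomial.eval q0 (F c) = 0 then 0 else V i c)
    (by
      intro c
      by_cases hc : MvPolynomial.eval q0 (F c) = 0
      · simp [hc]
      · simp only [if_neg hc]
        rw [← hVu c hc]; exact Nat.le_add_right _ _) hlt
  refine ⟨fun i => reflect (μ (pr i)) (q i), α, ?_, ?_, ?_, ?_⟩
  · intro i
    exact natDegree_reflect_le.trans (max_le le_rfl (hdeg i))
  · intro i
    rw [coeff_reflect, revAt_le le_rfl, Nat.sub_self, coeff_zero_eq_eval_zero, hq0]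
  · intro c
    have hinf : Infinite k := inferInstance
    have hkey : X * MvPolynomial.aeval (fun i => reflect (μ (pr i)) (q i)) (F c) =
        X * (C (MvPolynomial.eval q0 (F c)) * (X ^ u c * ∏ i, (X - C (α i)) ^ V i c)) := by
      apply Polynomial.funext
      intro t
      rw [eval_mul, eval_mul, eval_X]
      rcases eq_or_ne t 0 with rfl | ht
      · simp
      · congr 1
        rw [eval_aeval]
        have h1 : (fun i => (reflect (μ (pr i)) (q i)).eval t) =
            fun i => (fun l => t ^ μ l) (pr i) * (q i).eval t⁻¹ := by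
          funext i
          exact eval_reflect (hdeg i) ht
        rw [h1, MH.scale (hF c) (fun l => t ^ μ l) (fun i => (q i).eval t⁻¹), ← eval_aeval, hval c]
        have h2 : MvPolynomial.aeval q0 (F c) = MvPolynomial.eval q0 (F c) := by
          rw [MvPolynomial.aeval_eq_eval]
        rw [h2]
        by_cases hc : MvPolynomial.eval q0 (F c) = 0
        · rw [hc]; simp
        · simp only [if_neg hc]
          have h3 : ∏ l, (t ^ μ l) ^ δ c l = t ^ (∑ i, V i c + u c) := by
            rw [hVu c hc, ← Finset.prod_pow_eq_pow_sum]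
            refine Finset.prod_congr rfl fun l _ => ?_
            rw [← pow_mul]
          have h4 : t ^ (∑ i, V i c) * (lin α fun j => V j c).eval t⁻¹ =
              ∏ i, (t - α i) ^ V i c := by
            unfold lin
            rw [eval_prod, ← Finset.prod_pow_eq_pow_sum, ← Finset.prod_mul_distrib]
            refine Finset.prod_congr rfl fun i _ => ?_
            rw [eval_pow, ← mul_pow]
            congr 1
            rw [eval_sub, eval_one, eval_mul, eval_C, eval_X]
            field_simp
          rw [h3, eval_mul, eval_C, eval_mul, eval_C, eval_mul, eval_pow, eval_X, eval_prod,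
            pow_add]
          simp only [eval_pow, eval_sub, eval_X, eval_C]
          rw [← h4]
          ring
    exact mul_left_cancel₀ X_ne_zero hkey
  · rcases hne with ⟨i, hi⟩ | hj
    · left
      refine ⟨i, fun h => hi ?_⟩
      have h2 : reflect (μ (pr i)) (reflect (μ (pr i)) (q i)) =
          reflect (μ (pr i)) (C (q0 i) * X ^ μ (pr i)) := congrArg _ h
      rw [reflect_reflect, reflect_C_mul_X_pow, revAt_le le_rfl, Nat.sub_self, pow_zero,
        mul_one] at h2
      exact h2
    · exact Or.inr hj

end Pool.Agent.Q95.AB
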