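import Pool.Agent.Q41.AB.Stm2

set_option autoImplicit false

/-!
The hypersurfaces through a point are part of a system of local coordinates (lemma job for
helper41).
-/

open MvPolynomial Pool.Agent.Q41.RC Pool.Agent.Q41.AB

namespace Pool.Agent.Q95.AB

section

variable {k ρ σ κ : Type} [Field k] {n : ℕ} (ε : ρ ⊕ Fin n ≃ σ)

lemma eval_deh (q : σ → k) (hq : ∀ l, q (ε (Sum.inl l)) = 1) (P : MvPolynomial σ k) :
    eval (fun i => q (ε (Sum.inr i))) (deh ε P) = eval q P := by
  induction P using MvPolynomial.induction_on with
  | C a => simp [deh]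
  | add p q hp hq => simp only [map_add, hp, hq]
  | mul_X p i hp =>
    rw [map_mul, map_mul, hp, map_mul, eval_X]
    congr 1
    obtain ⟨j, rfl⟩ := ε.surjective i
    unfold deh
    rw [aeval_X, Equiv.symm_apply_apply]
    rcases j with l | b
    · simp [hq l]
    · simp

lemma pderiv_deh (i : Fin n) (P : MvPolynomial σ k) :
    pderiv i (deh ε P) = deh ε (pderiv (ε (Sum.inr i)) P) := by
  classical
  induction P using MvPolynomial.induction_on with
  | C a => simp [deh, algebraMap_eq]
  | add p q hp hq => simp only [map_add, hp, hq]
  | mul_X p m hp =>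
    rw [map_mul, pderiv_mul, hp, pderiv_mul, map_add, map_mul, map_mul]
    congr 2
    obtain ⟨j, rfl⟩ := ε.surjective m
    unfold deh
    rw [aeval_X, Equiv.symm_apply_apply, pderiv_X]
    rcases j with l | b
    · have h1 : ε (Sum.inl l) ≠ ε (Sum.inr i) := by
        intro h; exact absurd (ε.injective h) (by simp)
      rw [Pi.single_eq_of_ne h1]
      simp
    · simp only [Sum.elim_inr]
      rw [pderiv_X]
      by_cases h : b = i
      · subst h; simp
      · rw [Pi.single_eq_of_ne h, Pi.single_eq_of_ne]
        · simp
        · intro h2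
          exact h (Sum.inr_injective (ε.injective h2))

end

theorem locC : Pool.Agent.Q41.AB.S_LocC := by
  intro k ρ σ κ _ _ _ _ pr δ F hF hsnc n ε hpr q hq J hJ
  classical
  set w : κ → Fin n → k := fun c i => eval q (pderiv (ε (Sum.inr i)) (F c)) with hw
  have hpt : IsPt pr q := fun l => ⟨ε (Sum.inl l), hpr l, by rw [hq]; exact one_ne_zero⟩
  have hind := hsnc q hpt
  have hindJ : LinearIndependent k fun c : J => w c := by
    rw [Fintype.linearIndependent_iff]
    intro a ha
    rw [linearIndependent_iff'] at hind
    have hmem : ∀ c : J, eval q (F c.1) = 0 := fun c => hJ c.1 c.2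
    -- the combination of the full gradients vanishes
    have hG : ∀ i : σ, ∑ c : J, a c * eval q (pderiv i (F c.1)) = 0 := by
      have hr : ∀ b : Fin n, ∑ c : J, a c * eval q (pderiv (ε (Sum.inr b)) (F c.1)) = 0 := by
        intro b
        have := congrFun ha b
        simpa [hw] using this
      intro i
      obtain ⟨j, rfl⟩ := ε.surjective i
      rcases j with l | b
      · -- Euler
        have he : ∀ c : J, ∑ i, (if pr i = l then 1 else 0) * q i * eval q (pderiv i (F c.1)) =
            0 := by
          intro c
          have h1 := MH.euler (hF c.1) (K := k) q l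
          have h2 : ∀ P : MvPolynomial σ k, aeval q P = eval q P := fun P => by
            rw [MvPolynomial.aeval_eq_eval]
          simp only [h2] at h1
          rw [h1, hmem c, mul_zero]
        have h3 : ∑ i, (if pr i = l then 1 else 0) * q i *
            (∑ c : J, a c * eval q (pderiv i (F c.1))) = 0 := by
          have h4 : ∀ i, (if pr i = l then 1 else 0) * q i *
              (∑ c : J, a c * eval q (pderiv i (F c.1))) =
              ∑ c : J, a c * ((if pr i = l then 1 else 0) * q i * eval q (pderiv i (F c.1))) := by
            intro i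
            rw [Finset.mul_sum]
            exact Finset.sum_congr rfl fun c _ => by ring
          rw [Finset.sum_congr rfl fun i _ => h4 i, Finset.sum_comm]
          refine Finset.sum_eq_zero fun c _ => ?_
          rw [← Finset.mul_sum, he c, mul_zero]
        rw [← Equiv.sum_comp ε, Fintype.sum_sum_type] at h3
        have h5 : ∑ b : Fin n, (if pr (ε (Sum.inr b)) = l then 1 else 0) * q (ε (Sum.inr b)) *
            (∑ c : J, a c * eval q (pderiv (ε (Sum.inr b)) (F c.1))) = 0 :=
          Finset.sum_eq_zero fun b _ => by rw [hr b, mul_zero]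
        rw [h5, add_zero, Finset.sum_eq_single l] at h3
        · rw [hpr, if_pos rfl, hq, one_mul, one_mul] at h3
          exact h3
        · intro l' _ hl'
          rw [hpr, if_neg hl', zero_mul, zero_mul]
        · intro h; exact absurd (Finset.mem_univ l) h
      · exact hr b
    intro c
    have hinj : Function.Injective (fun c : J => (⟨c.1, hmem c⟩ : {c // eval q (F c) = 0})) := by
      intro x y hxy
      have := congrArg Subtype.val hxy
      exact Subtype.ext this
    have h6 := hind (Finset.univ.image fun c : J => (⟨c.1, hmem c⟩ : {c // eval q (F c) = 0}))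
      (fun d => if hd : d.1 ∈ J then a ⟨d.1, hd⟩ else 0) (by
        rw [Finset.sum_image (fun x _ y _ h => hinj h)]
        funext i
        rw [Finset.sum_apply]
        simp only [Pi.smul_apply, smul_eq_mul, Pi.zero_apply]
        refine (Finset.sum_congr rfl fun c _ => ?_).trans (hG i)
        rw [dif_pos c.2]) ⟨c.1, hmem c⟩ (Finset.mem_image.2 ⟨c, Finset.mem_univ _, rfl⟩)
    simpa using h6
  obtain ⟨c, hc, hdet⟩ := exists_selK J w hindJ J (Finset.Subset.refl J)
  have hmat : (Matrix.of fun i b => eval (fun i => q (ε (Sum.inr i)))
      (pderiv i (yc ε F q c b))) = colK w c := by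
    ext i b
    unfold colK yc
    rw [Matrix.of_apply, Matrix.of_apply]
    rcases hcb : c b with _ | e
    · simp only [Option.elim]
      rw [map_sub, pderiv_C, sub_zero, pderiv_X]
      by_cases h : i = b
      · subst h; simp
      · rw [Pi.single_eq_of_ne (Ne.symm h), if_neg h, map_zero]
    · simp only [Option.elim]
      rw [pderiv_deh, eval_deh ε q hq]
  refine ⟨c, hc, ?_, ?_, ?_⟩
  · intro b b' e hb hb'
    by_contra hne
    apply hdet
    apply Matrix.det_zero_of_column_eq hne
    intro i
    unfold colK
    rw [Matrix.of_apply, Matrix.of_apply, hb, hb']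
    rfl
  · intro b
    unfold yc
    rcases hcb : c b with _ | e
    · simp only [Option.elim]; simp
    · simp only [Option.elim]
      rw [eval_deh ε q hq]
      exact hJ e (hc.2 b e hcb)
  · rw [hmat]; exact hdet

end Pool.Agent.Q95.AB
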